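import Mathlib

/-!
A pseudocentral Baer group that is not a Fitting group.

The group is the semidirect product of the additive group of the polynomial ring over the field
with two elements in variables `x_q` indexed by the rationals with the McLain type group generated
by the transvections `x_δ ↦ x_δ + x_α`, `α < δ`, acting by algebra automorphisms.
-/

set_option autoImplicit false

open MvPolynomial

namespace Pool.Agent.Results.MP_a7b7fa_al.PseudocentralBaer

/-- The polynomial ring over the field with two elements in variables indexed by the rationals. -/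
abbrev R : Type := MvPolynomial ℚ (ZMod 2)

/-- Its group of algebra automorphisms. -/
abbrev A : Type := R ≃ₐ[ZMod 2] R

lemma add_self (f : R) : f + f = 0 := by
  have h : (2 : R) = 0 := by
    have h1 : (C (2 : ZMod 2) : R) = 2 := map_ofNat C 2
    rw [← h1, show (2 : ZMod 2) = 0 from rfl, map_zero]
  rw [← two_mul, h, zero_mul]

lemma neg_eq (f : R) : -f = f := by
  rw [neg_eq_iff_add_eq_zero, add_self]

lemma sub_eq (f g : R) : f - g = f + g := by rw [sub_eq_add_neg, neg_eq]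

/-- The substitution `x_δ ↦ x_δ + x_α`. -/
noncomputable def sb (α δ : ℚ) : R →ₐ[ZMod 2] R :=
  aeval (fun γ => if γ = δ then X δ + X α else X γ)

lemma sb_self (α δ : ℚ) : sb α δ (X δ) = X δ + X α := by simp [sb]

lemma sb_ne {α δ γ : ℚ} (h : γ ≠ δ) : sb α δ (X γ) = X γ := by simp [sb, h]

lemma sb_sb {α δ : ℚ} (h : α < δ) : (sb α δ).comp (sb α δ) = AlgHom.id _ _ := by
  apply MvPolynomial.algHom_ext
  intro γ
  rw [AlgHom.comp_apply, AlgHom.id_apply]
  by_cases hγ : γ = δ
  · subst hγ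
    rw [sb_self, map_add, sb_self, sb_ne h.ne, add_assoc, add_self, add_zero]
  · rw [sb_ne hγ, sb_ne hγ]

/-- The transvection `x_δ ↦ x_δ + x_α`, for `α < δ`. -/
noncomputable def tv (α δ : ℚ) (h : α < δ) : A := AlgEquiv.ofAlgHom (sb α δ) (sb α δ) (sb_sb h) (sb_sb h)

lemma tv_apply {α δ : ℚ} (h : α < δ) (f : R) : tv α δ h f = sb α δ f := rfl

lemma tv_self {α δ : ℚ} (h : α < δ) : tv α δ h (X δ) = X δ + X α := sb_self α δ

lemma tv_ne {α δ γ : ℚ} (h : α < δ) (hγ : γ ≠ δ) : tv α δ h (X γ) = X γ := sb_ne hγ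

lemma tv_inv {α δ : ℚ} (h : α < δ) : (tv α δ h)⁻¹ = tv α δ h := rfl

lemma tv_tv {α δ : ℚ} (h : α < δ) (f : R) : tv α δ h (tv α δ h f) = f :=
  congrArg (fun g : R →ₐ[ZMod 2] R => g f) (sb_sb h)

lemma A_ext {g h : A} (hgh : ∀ γ : ℚ, g (X γ) = h (X γ)) : g = h := by
  have h1 : (g : R →ₐ[ZMod 2] R) = (h : R →ₐ[ZMod 2] R) := MvPolynomial.algHom_ext hgh
  apply AlgEquiv.ext
  intro f
  exact congrArg (fun k : R →ₐ[ZMod 2] R => k f) h1

lemma mul_app (g h : A) (f : R) : (g * h) f = g (h f) := rfl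

lemma inv_app (g : A) (f : R) : g⁻¹ (g f) = f := g.symm_apply_apply f

lemma app_inv (g : A) (f : R) : g (g⁻¹ f) = f := g.apply_symm_apply f

/-- The McLain type group generated by the transvections. -/
noncomputable def M : Subgroup A := Subgroup.closure {g | ∃ (α δ : ℚ) (h : α < δ), g = tv α δ h}

lemma tv_mem {α δ : ℚ} (h : α < δ) : tv α δ h ∈ M := Subgroup.subset_closure ⟨α, δ, h, rfl⟩

/-- Linear forms in the variables from `S`. -/
noncomputable def Lin (S : Set ℚ) : Submodule (ZMod 2) R := Submodule.span (ZMod 2) (X '' S)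

lemma X_mem_Lin {S : Set ℚ} {γ : ℚ} (h : γ ∈ S) : (X γ : R) ∈ Lin S :=
  Submodule.subset_span ⟨γ, h, rfl⟩

lemma Lin_mono {S T : Set ℚ} (h : S ⊆ T) : Lin S ≤ Lin T :=
  Submodule.span_mono (Set.image_mono h)

lemma Lin_map {S T : Set ℚ} {g : A} (h : ∀ γ ∈ S, g (X γ) ∈ Lin T) {f : R} (hf : f ∈ Lin S) :
    g f ∈ Lin T := by
  have h1 : Lin S ≤ (Lin T).comap (g : R →ₐ[ZMod 2] R).toLinearMap := by
    apply Submodule.span_le.2
    rintro _ ⟨γ, hγ, rfl⟩
    exact h γ hγ
  exact h1 hf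

/-- `g` is unitriangular with entries in rows and columns from the finite set `F`. -/
def Tri (F : Finset ℚ) (g : A) : Prop :=
  (∀ γ, g (X γ) - X γ ∈ Lin {ν | ν ∈ F ∧ ν < γ}) ∧ ∀ γ, γ ∉ F → g (X γ) = X γ

lemma Tri.map_Lin {F : Finset ℚ} {g : A} (h : Tri F g) {γ : ℚ} {f : R}
    (hf : f ∈ Lin {ν | ν ∈ F ∧ ν < γ}) : g f ∈ Lin {ν | ν ∈ F ∧ ν < γ} := by
  refine Lin_map ?_ hf
  rintro ν ⟨hν, hνγ⟩
  have h1 := h.1 ν
  have h2 : g (X ν) - X ν ∈ Lin {ν | ν ∈ F ∧ ν < γ} :=
    Lin_mono (S := {μ | μ ∈ F ∧ μ < ν}) (T := {μ | μ ∈ F ∧ μ < γ})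
      (fun μ (hμ : μ ∈ F ∧ μ < ν) => (⟨hμ.1, hμ.2.trans hνγ⟩ : μ ∈ F ∧ μ < γ)) h1
  have h3 := add_mem h2 (X_mem_Lin (show ν ∈ {ν | ν ∈ F ∧ ν < γ} from ⟨hν, hνγ⟩))
  rwa [sub_add_cancel] at h3

lemma Tri.one (F : Finset ℚ) : Tri F 1 :=
  ⟨fun γ => by rw [show (1 : A) (X γ) = X γ from rfl, sub_self]; exact zero_mem _, fun γ _ => rfl⟩

lemma Tri.mul {F : Finset ℚ} {g h : A} (hg : Tri F g) (hh : Tri F h) : Tri F (g * h) := by
  constructor
  · intro γ
    have h1 : (g * h) (X γ) - X γ = g (h (X γ) - X γ) + (g (X γ) - X γ) := by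
      rw [mul_app, map_sub]; ring
    rw [h1]
    exact add_mem (hg.map_Lin (hh.1 γ)) (hg.1 γ)
  · intro γ hγ
    rw [mul_app, hh.2 γ hγ, hg.2 γ hγ]

lemma Tri.mono {F F' : Finset ℚ} {g : A} (h : Tri F g) (hF : F ⊆ F') : Tri F' g :=
  ⟨fun γ => Lin_mono (S := {μ | μ ∈ F ∧ μ < γ}) (T := {μ | μ ∈ F' ∧ μ < γ})
    (fun μ (hμ : μ ∈ F ∧ μ < γ) => (⟨hF hμ.1, hμ.2⟩ : μ ∈ F' ∧ μ < γ)) (h.1 γ),
    fun γ hγ => h.2 γ (fun h => hγ (hF h))⟩

lemma tri_tv {α δ : ℚ} (h : α < δ) : Tri {α, δ} (tv α δ h) := by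
  constructor
  · intro γ
    by_cases hγ : γ = δ
    · subst hγ
      rw [tv_self, add_sub_cancel_left]
      exact X_mem_Lin (show α ∈ {ν | ν ∈ ({α, γ} : Finset ℚ) ∧ ν < γ} from ⟨by simp, h⟩)
    · rw [tv_ne h hγ, sub_self]; exact zero_mem _
  · intro γ hγ
    have : γ ≠ δ := by rintro rfl; simp at hγ
    exact tv_ne h this

/-- Every element of the group is unitriangular with finite support, together with its inverse. -/
lemma exists_tri {g : A} (hg : g ∈ M) : ∃ F : Finset ℚ, Tri F g ∧ Tri F g⁻¹ := by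
  classical
  induction hg using Subgroup.closure_induction with
  | mem x hx =>
    obtain ⟨α, δ, h, rfl⟩ := hx
    exact ⟨{α, δ}, tri_tv h, by rw [tv_inv]; exact tri_tv h⟩
  | one => exact ⟨∅, Tri.one _, by rw [inv_one]; exact Tri.one _⟩
  | mul x y _ _ hx hy =>
    obtain ⟨F, h1, h2⟩ := hx
    obtain ⟨F', h3, h4⟩ := hy
    refine ⟨F ∪ F', (h1.mono Finset.subset_union_left).mul (h3.mono Finset.subset_union_right), ?_⟩
    rw [mul_inv_rev]
    exact (h4.mono Finset.subset_union_right).mul (h2.mono Finset.subset_union_left)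
  | inv x _ hx =>
    obtain ⟨F, h1, h2⟩ := hx
    exact ⟨F, h2, by rwa [inv_inv]⟩

/-- A criterion for subnormality. -/
lemma subnormal_chain {G : Type} [Group G] (T : Set G) (N : ℕ → Subgroup G) (k : ℕ)
    (hk : N k ≤ Subgroup.closure T) (hanti : ∀ j, N (j + 1) ≤ N j)
    (hN : ∀ j, ∀ x ∈ N j, ∀ n ∈ N (j + 1), x * n * x⁻¹ ∈ N (j + 1))
    (hcomm : ∀ j, ∀ x ∈ N j, ∀ t ∈ T, x * t * x⁻¹ ∈ Subgroup.closure T ⊔ N (j + 1))
    (h0 : (Subgroup.closure T ⊔ N 0).IsSubnormal) : (Subgroup.closure T).IsSubnormal := by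
  have key : ∀ j, (Subgroup.closure T ⊔ N j).IsSubnormal := by
    intro j
    induction j with
    | zero => exact h0
    | succ j ih =>
      refine Subgroup.IsSubnormal.step _ (Subgroup.closure T ⊔ N j)
        (sup_le_sup_left (hanti j) _) ih ?_
      apply Subgroup.normal_subgroupOf_of_le_normalizer
      apply sup_le
      · exact le_sup_left.trans Subgroup.le_normalizer
      · have hmain : ∀ x ∈ N j, ∀ y ∈ Subgroup.closure T ⊔ N (j + 1),
            x * y * x⁻¹ ∈ Subgroup.closure T ⊔ N (j + 1) := by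
          intro x hx y hy
          have hle : Subgroup.closure T ⊔ N (j + 1) ≤
              (Subgroup.closure T ⊔ N (j + 1)).comap (MulAut.conj x).toMonoidHom := by
            apply sup_le
            · rw [Subgroup.closure_le]
              intro t ht
              exact hcomm j x hx t ht
            · intro n hn
              exact Subgroup.mem_sup_right (hN j x hx n hn)
          exact hle hy
        intro x hx
        rw [Subgroup.mem_normalizer_iff]
        intro y
        constructor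
        · exact hmain x hx y
        · intro hy
          have := hmain x⁻¹ (inv_mem hx) _ hy
          simpa [mul_assoc] using this
  have h1 := key k
  rwa [sup_eq_left.2 hk] at h1

lemma Lin_map_sub {S T : Set ℚ} {g : A} (h : ∀ γ ∈ S, g (X γ) - X γ ∈ Lin T) {f : R}
    (hf : f ∈ Lin S) : g f - f ∈ Lin T := by
  have h1 : Lin S ≤ (Lin T).comap ((g : R →ₐ[ZMod 2] R).toLinearMap - LinearMap.id) := by
    apply Submodule.span_le.2
    rintro _ ⟨γ, hγ, rfl⟩
    exact h γ hγ
  exact h1 hf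

/-- The rank of `γ` with respect to the finite set `F`. -/
noncomputable def rk (F : Finset ℚ) (γ : ℚ) : ℕ := (F.filter (fun ν => ν < γ)).card

lemma rk_mono (F : Finset ℚ) {γ γ' : ℚ} (h : γ ≤ γ') : rk F γ ≤ rk F γ' := by
  apply Finset.card_le_card
  intro ν hν
  rw [Finset.mem_filter] at hν ⊢
  exact ⟨hν.1, hν.2.trans_le h⟩

lemma rk_lt (F : Finset ℚ) {ν γ : ℚ} (hν : ν ∈ F) (h : ν < γ) : rk F ν < rk F γ := by
  apply Finset.card_lt_card
  rw [Finset.ssubset_iff_of_subset]
  · refine ⟨ν, ?_, ?_⟩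
    · rw [Finset.mem_filter]; exact ⟨hν, h⟩
    · rw [Finset.mem_filter]; exact fun h => lt_irrefl _ h.2
  · intro μ hμ
    rw [Finset.mem_filter] at hμ ⊢
    exact ⟨hμ.1, hμ.2.trans h⟩

lemma rk_le (F : Finset ℚ) (γ : ℚ) : rk F γ ≤ F.card := Finset.card_filter_le _ _

/-- The filtration of the space of linear forms. -/
noncomputable def W (F : Finset ℚ) (i : ℕ) : Submodule (ZMod 2) R := Lin {γ | rk F γ < i}

lemma W_invariant (F : Finset ℚ) (i : ℕ) {g : A} (hg : g ∈ M) {w : R} (hw : w ∈ W F i) :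
    g w ∈ W F i := by
  obtain ⟨F', h1, -⟩ := exists_tri hg
  refine Lin_map ?_ hw
  intro γ hγ
  have h2 : g (X γ) - X γ ∈ W F i := Lin_mono (S := {ν | ν ∈ F' ∧ ν < γ}) (T := {γ | rk F γ < i})
    (fun ν (hν : ν ∈ F' ∧ ν < γ) => lt_of_le_of_lt (rk_mono F hν.2.le) hγ) (h1.1 γ)
  have h3 := add_mem h2 (show (X γ : R) ∈ W F i from X_mem_Lin hγ)
  rwa [sub_add_cancel] at h3

/-- The stability subgroups. -/
noncomputable def U (F : Finset ℚ) (k : ℕ) : Subgroup M where
  carrier := {g | ∀ i, ∀ w ∈ W F (i + k), (g : A) w - w ∈ W F i}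
  one_mem' := by
    intro i w _
    rw [show ((1 : M) : A) w = w from rfl, sub_self]; exact zero_mem _
  mul_mem' := by
    intro g h hg hh i w hw
    have h1 : ((g * h : M) : A) w - w = (g : A) ((h : A) w - w) + ((g : A) w - w) := by
      rw [map_sub]
      show (g : A) ((h : A) w) - w = _
      ring
    rw [h1]
    exact add_mem (W_invariant F i g.2 (hh i w hw)) (hg i w hw)
  inv_mem' := by
    intro g hg i w hw
    have h1 : ((g⁻¹ : M) : A) w - w = - (((g⁻¹ : M) : A) ((g : A) w - w)) := by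
      rw [map_sub]
      have : ((g⁻¹ : M) : A) ((g : A) w) = w := inv_app _ _
      rw [this]; ring
    rw [h1]
    exact neg_mem (W_invariant F i (g⁻¹).2 (hg i w hw))

lemma U_normal (F : Finset ℚ) (k : ℕ) : (U F k).Normal := by
  constructor
  intro n hn g i w hw
  have h1 : ((g * n * g⁻¹ : M) : A) w - w =
      (g : A) ((n : A) (((g⁻¹ : M) : A) w) - ((g⁻¹ : M) : A) w) := by
    rw [map_sub]
    have : (g : A) (((g⁻¹ : M) : A) w) = w := app_inv _ _
    rw [this]; rfl
  rw [h1]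
  exact W_invariant F i g.2 (hn i _ (W_invariant F _ (g⁻¹).2 hw))

lemma U_comm (F : Finset ℚ) (k : ℕ) {g h : M} (hg : g ∈ U F k) (hh : h ∈ U F 1) :
    g * h * g⁻¹ * h⁻¹ ∈ U F (k + 1) := by
  intro i w hw
  have hw' : ((g⁻¹ * h⁻¹ : M) : A) w ∈ W F (i + (k + 1)) := W_invariant F _ (g⁻¹ * h⁻¹).2 hw
  set w' := ((g⁻¹ * h⁻¹ : M) : A) w with hw'def
  have e1 : w = (h : A) ((g : A) w') := by
    rw [hw'def]
    have : ((g⁻¹ * h⁻¹ : M) : A) w = ((g⁻¹ : M) : A) (((h⁻¹ : M) : A) w) := rfl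
    rw [this, show (g : A) (((g⁻¹ : M) : A) (((h⁻¹ : M) : A) w)) = ((h⁻¹ : M) : A) w from
      app_inv _ _]
    exact (app_inv _ _).symm
  have e2 : ((g * h * g⁻¹ * h⁻¹ : M) : A) w = (g : A) ((h : A) w') := by
    rw [hw'def, mul_assoc]; rfl
  have e3 : ((g * h * g⁻¹ * h⁻¹ : M) : A) w - w =
      ((g : A) ((h : A) w' - w') - ((h : A) w' - w')) -
        ((h : A) ((g : A) w' - w') - ((g : A) w' - w')) := by
    rw [e2]
    nth_rewrite 1 [e1]
    rw [map_sub, map_sub]; ring
  rw [e3]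
  apply sub_mem
  · apply hg i
    apply hh (i + k)
    rwa [← add_assoc] at hw'
  · apply hh i
    apply hg (i + 1)
    rwa [add_assoc, add_comm 1 k]

lemma U_bot (F : Finset ℚ) : U F (F.card + 1) = ⊥ := by
  rw [eq_bot_iff]
  intro g hg
  rw [Subgroup.mem_bot]
  apply Subtype.ext
  apply A_ext
  intro γ
  have h1 := hg 0 (X γ) (X_mem_Lin (show rk F γ < 0 + (F.card + 1) by
    have := rk_le F γ; omega))
  have h2 : W F 0 = ⊥ := by
    have : {γ : ℚ | rk F γ < 0} = ∅ := by ext; simp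
    rw [W, this, Lin, Set.image_empty, Submodule.span_empty]
  rw [h2, Submodule.mem_bot, sub_eq_zero] at h1
  exact h1

lemma U_anti (F : Finset ℚ) (k : ℕ) : U F (k + 1) ≤ U F k := by
  intro g hg i w hw
  have h1 : w ∈ W F (i + (k + 1)) := Lin_mono (S := {γ | rk F γ < i + k})
    (T := {γ | rk F γ < i + (k + 1)}) (fun γ (h : rk F γ < i + k) => by
      show rk F γ < i + (k + 1)
      omega) hw
  exact hg i w h1

lemma mem_U_one {F : Finset ℚ} {g : M} (h : Tri F (g : A)) : g ∈ U F 1 := by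
  intro i w hw
  refine Lin_map_sub ?_ hw
  intro γ hγ
  refine Lin_mono (S := {ν | ν ∈ F ∧ ν < γ}) (T := {γ | rk F γ < i}) ?_ (h.1 γ)
  intro ν (hν : ν ∈ F ∧ ν < γ)
  have h1 := rk_lt F hν.1 hν.2
  have h2 : rk F γ < i + 1 := hγ
  show rk F ν < i
  omega

lemma zpowers_subnormal_M (m : M) : (Subgroup.zpowers m).IsSubnormal := by
  obtain ⟨F, h1, -⟩ := exists_tri m.2
  have hm : m ∈ U F 1 := mem_U_one h1
  rw [Subgroup.zpowers_eq_closure]
  have hle : Subgroup.closure {m} ≤ U F 1 := by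
    rw [Subgroup.closure_le]; intro x hx; rw [Set.mem_singleton_iff.1 hx]; exact hm
  refine subnormal_chain {m} (fun j => U F (j + 1)) F.card ?_ (fun j => U_anti F (j + 1)) ?_ ?_ ?_
  · show U F (F.card + 1) ≤ _
    rw [U_bot]; exact bot_le
  · intro j x _ n hn
    exact (U_normal F _).conj_mem n hn x
  · intro j x hx t ht
    have ht' : t ∈ U F 1 := by rw [Set.mem_singleton_iff.1 ht]; exact hm
    have h2 := U_comm F (j + 1) hx ht'
    have h3 : x * t * x⁻¹ = (x * t * x⁻¹ * t⁻¹) * t := by group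
    rw [h3]
    exact mul_mem (Subgroup.mem_sup_right h2) (Subgroup.mem_sup_left (Subgroup.subset_closure ht))
  · show (Subgroup.closure {m} ⊔ U F (0 + 1)).IsSubnormal
    rw [zero_add, sup_eq_right.2 hle]
    exact (U_normal F 1).isSubnormal

/-- Every element of `M` has order a power of two. -/
lemma exists_pow_eq_one (m : M) : ∃ e : ℕ, m ^ (2 ^ e) = 1 := by
  obtain ⟨F, h1, -⟩ := exists_tri m.2
  have hm : m ∈ U F 1 := mem_U_one h1
  let D : R →ₗ[ZMod 2] R := ((m : A) : R →ₐ[ZMod 2] R).toLinearMap - LinearMap.id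
  have hD : ∀ f, D f = (m : A) f - f := fun f => rfl
  have h2 : ∀ k i, ∀ w ∈ W F (i + k), (D ^ k) w ∈ W F i := by
    intro k
    induction k with
    | zero => intro i w hw; simpa using hw
    | succ k ih =>
      intro i w hw
      rw [pow_succ']
      show D ((D ^ k) w) ∈ _
      rw [hD]
      apply hm i
      apply ih (i + 1)
      rwa [add_assoc, add_comm 1 k]
  have h3 : ∀ e f, (D ^ (2 ^ e)) f = ((m ^ (2 ^ e) : M) : A) f - f := by
    intro e
    induction e with
    | zero => intro f; simp [hD]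
    | succ e ih =>
      intro f
      rw [pow_succ 2 e, mul_two, pow_add]
      show (D ^ (2 ^ e)) ((D ^ (2 ^ e)) f) = _
      rw [ih, ih, map_sub, pow_add]
      show _ = ((m ^ (2 ^ e) : M) : A) (((m ^ (2 ^ e) : M) : A) f) - f
      have h4 := add_self (((m ^ (2 ^ e) : M) : A) f)
      have h5 := add_self f
      linear_combination (-1 : R) * h4 + h5
  refine ⟨F.card + 1, ?_⟩
  apply Subtype.ext
  apply A_ext
  intro γ
  have h4 : 2 ^ (F.card + 1) = (2 ^ (F.card + 1) - (F.card + 1)) + (F.card + 1) := by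
    have := (Nat.lt_two_pow_self (n := F.card + 1)).le
    omega
  have h5 : (D ^ (2 ^ (F.card + 1))) (X γ) = 0 := by
    rw [h4, pow_add]
    show (D ^ (2 ^ (F.card + 1) - (F.card + 1))) ((D ^ (F.card + 1)) (X γ)) = 0
    have h6 : (D ^ (F.card + 1)) (X γ : R) ∈ W F 0 := by
      apply h2
      exact X_mem_Lin (show rk F γ < 0 + (F.card + 1) by have := rk_le F γ; omega)
    have h7 : W F 0 = ⊥ := by
      have : {γ : ℚ | rk F γ < 0} = ∅ := by ext; simp
      rw [W, this, Lin, Set.image_empty, Submodule.span_empty]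
    rw [h7, Submodule.mem_bot] at h6
    rw [h6, map_zero]
  rw [h3, sub_eq_zero] at h5
  exact h5

/-- The semidirect product of the additive group of `R` with `M`. -/
@[ext] structure Gp where
  v : R
  m : M

namespace Gp

noncomputable instance : Mul Gp := ⟨fun x y => ⟨x.v + (x.m : A) y.v, x.m * y.m⟩⟩
noncomputable instance : One Gp := ⟨⟨0, 1⟩⟩
noncomputable instance : Inv Gp := ⟨fun x => ⟨-(((x.m⁻¹ : M) : A) x.v), x.m⁻¹⟩⟩

@[simp] lemma mul_v (x y : Gp) : (x * y).v = x.v + (x.m : A) y.v := rfl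
@[simp] lemma mul_m (x y : Gp) : (x * y).m = x.m * y.m := rfl
@[simp] lemma one_v : (1 : Gp).v = 0 := rfl
@[simp] lemma one_m : (1 : Gp).m = 1 := rfl
@[simp] lemma inv_v (x : Gp) : (x⁻¹).v = -(((x.m⁻¹ : M) : A) x.v) := rfl
@[simp] lemma inv_m (x : Gp) : (x⁻¹).m = x.m⁻¹ := rfl

noncomputable instance : Group Gp :=
  Group.ofLeftAxioms
    (by
      intro x y z
      ext1
      · show x.v + (x.m : A) y.v + ((x.m * y.m : M) : A) z.v =
          x.v + (x.m : A) (y.v + (y.m : A) z.v)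
        rw [map_add, add_assoc]; rfl
      · exact mul_assoc _ _ _)
    (by
      intro x
      ext1
      · show 0 + ((1 : M) : A) x.v = x.v
        rw [zero_add]; rfl
      · exact one_mul _)
    (by
      intro x
      ext1
      · show -(((x.m⁻¹ : M) : A) x.v) + ((x.m⁻¹ : M) : A) x.v = 0
        rw [neg_add_cancel]
      · exact inv_mul_cancel _)

/-- The projection to `M`. -/
noncomputable def π : Gp →* M where
  toFun := Gp.m
  map_one' := rfl
  map_mul' _ _ := rfl

/-- The inclusion of `M`. -/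
noncomputable def inr : M →* Gp where
  toFun m := ⟨0, m⟩
  map_one' := rfl
  map_mul' x y := by
    ext1
    · show (0 : R) = 0 + (x : A) 0
      rw [map_zero, add_zero]
    · rfl

/-- The inclusion of the module. -/
noncomputable def inl (f : R) : Gp := ⟨f, 1⟩

lemma inl_add (f g : R) : inl (f + g) = inl f * inl g := rfl

lemma inl_neg (f : R) : inl (-f) = (inl f)⁻¹ := by
  ext1
  · show -f = -(((1 : M)⁻¹ : M) : A) f
    rw [inv_one]; rfl
  · show (1 : M) = 1⁻¹
    rw [inv_one]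

lemma eq_inl {x : Gp} (h : x.m = 1) : x = inl x.v := Gp.ext rfl h

lemma eq_mul (x : Gp) : x = inl x.v * inr x.m := by
  ext1
  · show x.v = x.v + ((1 : M) : A) 0
    rw [map_zero, add_zero]
  · exact (one_mul _).symm

/-- Conjugation of the module. -/
lemma conj_inl (x : Gp) (f : R) : x * inl f * x⁻¹ = inl ((x.m : A) f) := by
  rw [mul_inv_eq_iff_eq_mul]
  ext1
  · show x.v + (x.m : A) f = (x.m : A) f + ((1 : M) : A) x.v
    rw [add_comm]; rfl
  · show x.m * 1 = 1 * x.m
    rw [mul_one, one_mul]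

/-- Conjugation by the module. -/
lemma inl_conj (x : Gp) (f : R) : inl f * x * (inl f)⁻¹ = inl (-((x.m : A) f - f)) * x := by
  rw [mul_inv_eq_iff_eq_mul]
  ext1
  · show f + ((1 : M) : A) x.v = -((x.m : A) f - f) + ((1 : M) : A) x.v + ((1 * x.m : M) : A) f
    rw [one_mul]
    show f + x.v = -((x.m : A) f - f) + x.v + (x.m : A) f
    ring
  · show 1 * x.m = 1 * x.m * 1
    rw [mul_one]

end Gp

/-- Baer groups: all cyclic subgroups are subnormal. -/
def IsBaer (G : Type) [Group G] : Prop := ∀ g : G, (Subgroup.zpowers g).IsSubnormal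

/-- Fitting groups: generated by the nilpotent normal subgroups. -/
def IsFittingGroup (G : Type) [Group G] : Prop :=
  sSup {N : Subgroup G | N.Normal ∧ Group.IsNilpotent N} = ⊤

/-- The pseudocentre: the intersection of the normal closures of the centralizers. -/
def pseudocentre (G : Type) [Group G] : Subgroup G :=
  ⨅ g : G, Subgroup.normalClosure (Subgroup.centralizer {g} : Set G)

open Gp

theorem baer : IsBaer Gp := by
  intro g
  obtain ⟨e, he⟩ := exists_pow_eq_one g.m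
  let D : R →ₗ[ZMod 2] R := ((g.m : A) : R →ₐ[ZMod 2] R).toLinearMap - LinearMap.id
  have hD : ∀ f, D f = (g.m : A) f - f := fun f => rfl
  have h3 : ∀ e f, (D ^ (2 ^ e)) f = ((g.m ^ (2 ^ e) : M) : A) f - f := by
    intro e
    induction e with
    | zero => intro f; simp [hD]
    | succ e ih =>
      intro f
      rw [pow_succ 2 e, mul_two, pow_add]
      show (D ^ (2 ^ e)) ((D ^ (2 ^ e)) f) = _
      rw [ih, ih, map_sub, pow_add]
      show _ = ((g.m ^ (2 ^ e) : M) : A) (((g.m ^ (2 ^ e) : M) : A) f) - f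
      have h4 := add_self (((g.m ^ (2 ^ e) : M) : A) f)
      have h5 := add_self f
      linear_combination (-1 : R) * h4 + h5
  have hDe : D ^ (2 ^ e) = 0 := by
    apply LinearMap.ext
    intro f
    rw [h3, he]
    show f - f = 0
    rw [sub_self]
  let N : ℕ → Subgroup Gp := fun j =>
    { carrier := {x | x.m = 1 ∧ x.v ∈ LinearMap.range (D ^ j)}
      one_mem' := ⟨rfl, zero_mem _⟩
      mul_mem' := by
        rintro x y ⟨h1, h2⟩ ⟨h3, h4⟩
        refine ⟨by rw [mul_m, h1, h3, mul_one], ?_⟩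
        rw [mul_v, h1]
        exact add_mem h2 h4
      inv_mem' := by
        rintro x ⟨h1, h2⟩
        refine ⟨by rw [inv_m, h1, inv_one], ?_⟩
        rw [inv_v, h1, inv_one]
        exact neg_mem h2 }
  have hNmem : ∀ j x, x ∈ N j ↔ x.m = 1 ∧ x.v ∈ LinearMap.range (D ^ j) := fun _ _ => Iff.rfl
  rw [Subgroup.zpowers_eq_closure]
  refine subnormal_chain {g} N (2 ^ e) ?_ ?_ ?_ ?_ ?_
  · rintro x ⟨h1, h2⟩
    rw [hDe, LinearMap.range_zero, Submodule.mem_bot] at h2
    have : x = 1 := Gp.ext h2 h1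
    rw [this]; exact one_mem _
  · rintro j x ⟨h1, ⟨f, hf⟩⟩
    refine ⟨h1, ⟨D f, ?_⟩⟩
    rw [← hf, pow_succ]; rfl
  · rintro j x ⟨h1, h2⟩ n hn
    have : x * n * x⁻¹ = n := by
      rw [eq_inl hn.1, conj_inl, h1]; rfl
    rw [this]; exact hn
  · rintro j x ⟨h1, ⟨f, hf⟩⟩ t ht
    rw [Set.mem_singleton_iff.1 ht, eq_inl h1, inl_conj]
    refine mul_mem (Subgroup.mem_sup_right ?_) (Subgroup.mem_sup_left (Subgroup.subset_closure rfl))
    refine ⟨rfl, ?_⟩
    show -((g.m : A) x.v - x.v) ∈ _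
    rw [← hD, ← hf]
    apply neg_mem
    refine ⟨f, ?_⟩
    rw [pow_succ']; rfl
  · have h4 : Subgroup.closure {g} ⊔ N 0 = (Subgroup.zpowers g.m).comap π := by
      have h5 : N 0 = π.ker := by
        ext x
        rw [hNmem, MonoidHom.mem_ker]
        refine ⟨fun h => h.1, fun h => ⟨h, ⟨x.v, ?_⟩⟩⟩
        rw [pow_zero]; rfl
      rw [h5, ← Subgroup.comap_map_eq, ← Subgroup.zpowers_eq_closure, MonoidHom.map_zpowers]
      rfl
    rw [h4]
    exact (zpowers_subnormal_M g.m).comap π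

/-- A transvection with indices outside the support commutes with a unitriangular element. -/
lemma comm_of_tri {F : Finset ℚ} {g : A} (h : Tri F g) {γ δ : ℚ} (hγδ : γ < δ) (hγ : γ ∉ F)
    (hδ : δ ∉ F) : g * tv γ δ hγδ = tv γ δ hγδ * g := by
  apply A_ext
  intro μ
  rw [mul_app, mul_app]
  have hfix : ∀ f ∈ Lin {ν | ν ∈ F ∧ ν < μ}, tv γ δ hγδ f = f := by
    intro f hf
    have h1 : tv γ δ hγδ f - f ∈ Lin ∅ := by
      refine Lin_map_sub ?_ hf
      rintro ν ⟨hν, -⟩
      have : ν ≠ δ := fun h => hδ (h ▸ hν)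
      rw [tv_ne hγδ this, sub_self]; exact zero_mem _
    rw [Lin, Set.image_empty, Submodule.span_empty, Submodule.mem_bot, sub_eq_zero] at h1
    exact h1
  by_cases hμ : μ = δ
  · subst hμ
    rw [tv_self, map_add, h.2 _ hδ, h.2 _ hγ, tv_self]
  · rw [tv_ne hγδ hμ]
    have h1 := hfix _ (h.1 μ)
    rw [map_sub, tv_ne hγδ hμ, sub_left_inj] at h1
    exact h1.symm

/-- The commutator formula for transvections. -/
lemma tv_comm {α β γ : ℚ} (h1 : α < β) (h2 : β < γ) :
    tv α β h1 * tv β γ h2 * tv α β h1 * tv β γ h2 = tv α γ (h1.trans h2) := by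
  apply A_ext
  intro μ
  rw [mul_app, mul_app, mul_app]
  by_cases hμ : μ = γ
  · subst hμ
    have e1 : μ ≠ β := h2.ne'
    have e2 : α ≠ μ := (h1.trans h2).ne
    have e3 : β ≠ μ := h2.ne
    have e4 : α ≠ β := h1.ne
    simp only [tv_self, map_add, tv_ne h1 e1, tv_ne h2 e3, tv_ne h2 e2, tv_ne h1 e4]
    linear_combination add_self (X β : R) + add_self (X α : R)
  · by_cases hμ' : μ = β
    · subst hμ'
      have e2 : α ≠ γ := (h1.trans h2).ne
      have e4 : α ≠ μ := h1.ne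
      rw [tv_ne h2 hμ, tv_self, map_add, tv_ne h2 hμ, tv_ne h2 e2, map_add, tv_self, tv_ne h1 e4,
        tv_ne _ hμ]
      linear_combination add_self (X α : R)
    · rw [tv_ne h2 hμ, tv_ne h1 hμ', tv_ne h2 hμ, tv_ne h1 hμ', tv_ne _ hμ]

lemma exists_between_notMem (F : Finset ℚ) {α β : ℚ} (h : α < β) :
    ∃ γ, α < γ ∧ γ < β ∧ γ ∉ F := by
  have h1 : (Set.Ioo α β).Infinite := Set.Ioo_infinite h
  obtain ⟨γ, hγ, hγF⟩ := h1.exists_notMem_finset F
  exact ⟨γ, hγ.1, hγ.2, hγF⟩

lemma exists_gt_notMem (F : Finset ℚ) (α : ℚ) : ∃ γ, α < γ ∧ γ ∉ F := by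
  obtain ⟨γ, h1, -, h3⟩ := exists_between_notMem F (lt_add_one α)
  exact ⟨γ, h1, h3⟩

lemma tv_fix {γ δ : ℚ} (h : γ < δ) {f : R} (hf : δ ∉ f.vars) : tv γ δ h f = f := by
  rw [tv_apply, sb]
  conv_rhs => rw [← aeval_X_left_apply f]
  apply eval₂Hom_congr' rfl _ rfl
  intro i hi _
  have : i ≠ δ := fun h => hf (h ▸ hi)
  simp [this]

theorem pseudocentral : pseudocentre Gp = ⊤ := by
  classical
  rw [pseudocentre, iInf_eq_top]
  intro g
  set C : Subgroup Gp := Subgroup.normalClosure (Subgroup.centralizer {g} : Set Gp) with hC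
  have hCn : C.Normal := inferInstance
  have hcent : ∀ x : Gp, x * g = g * x → x ∈ C := by
    intro x hx
    apply Subgroup.subset_normalClosure
    rw [SetLike.mem_coe, Subgroup.mem_centralizer_iff]
    intro y hy
    rw [Set.mem_singleton_iff.1 hy, hx]
  obtain ⟨F0, hF0, -⟩ := exists_tri g.m.2
  set F : Finset ℚ := F0 ∪ g.v.vars with hF
  have hFt : Tri F (g.m : A) := hF0.mono Finset.subset_union_left
  -- transvections outside the support
  have h1 : ∀ (γ δ : ℚ) (h : γ < δ), γ ∉ F → δ ∉ F → inr ⟨tv γ δ h, tv_mem h⟩ ∈ C := by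
    intro γ δ h hγ hδ
    apply hcent
    have hδ' : δ ∉ g.v.vars := fun h => hδ (Finset.mem_union_right _ h)
    ext1
    · show 0 + tv γ δ h g.v = g.v + (g.m : A) 0
      rw [zero_add, map_zero, add_zero, tv_fix h hδ']
    · apply Subtype.ext
      show tv γ δ h * (g.m : A) = (g.m : A) * tv γ δ h
      exact (comm_of_tri hFt h hγ hδ).symm
  -- all transvections
  have h2 : ∀ (α β : ℚ) (h : α < β), inr ⟨tv α β h, tv_mem h⟩ ∈ C := by
    intro α β h
    obtain ⟨γ, hαγ, hγβ, hγ⟩ := exists_between_notMem F h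
    obtain ⟨δ, hγδ, hδβ, hδ⟩ := exists_between_notMem F hγβ
    have hc := h1 γ δ hγδ hγ hδ
    -- first commutator
    have hstep : ∀ (a b c : ℚ) (hab : a < b) (hbc : b < c),
        (inr ⟨tv a b hab, tv_mem hab⟩ ∈ C ∨ inr ⟨tv b c hbc, tv_mem hbc⟩ ∈ C) →
        inr ⟨tv a c (hab.trans hbc), tv_mem (hab.trans hbc)⟩ ∈ C := by
      intro a b c hab hbc hor
      have e1 : (⟨tv a c (hab.trans hbc), tv_mem (hab.trans hbc)⟩ : M) =
          ⟨tv a b hab, tv_mem hab⟩ * ⟨tv b c hbc, tv_mem hbc⟩ * ⟨tv a b hab, tv_mem hab⟩⁻¹ *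
            ⟨tv b c hbc, tv_mem hbc⟩⁻¹ := by
        apply Subtype.ext
        show tv a c (hab.trans hbc) = tv a b hab * tv b c hbc * (tv a b hab)⁻¹ * (tv b c hbc)⁻¹
        rw [tv_inv, tv_inv, tv_comm]
      rw [e1, map_mul, map_mul, map_mul, map_inv, map_inv]
      rcases hor with hor | hor
      · have := mul_mem hor (hCn.conj_mem _ (inv_mem hor) (inr ⟨tv b c hbc, tv_mem hbc⟩))
        simpa [mul_assoc] using this
      · exact mul_mem (hCn.conj_mem _ hor _) (inv_mem hor)
    have h3 := hstep α γ δ hαγ hγδ (Or.inr hc)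
    exact hstep α δ β (hαγ.trans hγδ) hδβ (Or.inl h3)
  -- all of `M`
  have h3 : ∀ m : M, inr m ∈ C := by
    rintro ⟨m, hm⟩
    have h4 : ∀ m (hm : m ∈ M), inr ⟨m, hm⟩ ∈ C := by
      intro m hm
      induction hm using Subgroup.closure_induction with
      | mem x hx =>
        obtain ⟨α, δ, h, rfl⟩ := hx
        exact h2 α δ h
      | one => exact one_mem C
      | mul x y hx hy ihx ihy =>
        have := mul_mem ihx ihy
        rwa [← map_mul] at this
      | inv x hx ihx =>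
        have := inv_mem ihx
        rwa [← map_inv] at this
    exact h4 m hm
  -- the module
  have h4 : ∀ (m : M) (f : R), inl ((m : A) f - f) ∈ C := by
    intro m f
    have e1 : inl ((m : A) f - f) = inr m * (inl f * (inr m)⁻¹ * (inl f)⁻¹) := by
      rw [← mul_assoc, ← mul_assoc, conj_inl, sub_eq_add_neg, inl_add, inl_neg]; rfl
    rw [e1]
    exact mul_mem (h3 m) (hCn.conj_mem _ (inv_mem (h3 m)) _)
  have h5 : ∀ (s : ℚ →₀ ℕ) (a : ZMod 2), inl (monomial s a) ∈ C := by
    intro s a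
    by_cases hs : s = 0
    · subst hs
      apply hcent
      ext1
      · show monomial 0 a + ((1 : M) : A) g.v = g.v + (g.m : A) (monomial 0 a)
        have h6 : (monomial 0 a : R) = algebraMap (ZMod 2) R a := rfl
        rw [h6, AlgEquiv.commutes, add_comm]; rfl
      · show 1 * g.m = g.m * 1
        rw [one_mul, mul_one]
    · obtain ⟨α, hα⟩ : ∃ α, s α ≠ 0 := by
        by_contra hcon
        push Not at hcon
        exact hs (Finsupp.ext hcon)
      obtain ⟨δ, hαδ, hδ⟩ := exists_gt_notMem s.support α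
      have hδ' : s δ = 0 := by simpa using hδ
      set s' : ℚ →₀ ℕ := s - Finsupp.single α 1 with hs'
      have hss : s = Finsupp.single α 1 + s' := by
        ext i
        rw [hs', Finsupp.add_apply, Finsupp.tsub_apply]
        by_cases hi : i = α
        · subst hi; rw [Finsupp.single_eq_same]; omega
        · rw [Finsupp.single_eq_of_ne hi]; omega
      have e1 : (monomial s a : R) = X α * monomial s' a := by
        rw [X, monomial_mul, one_mul, ← hss]
      have e2 : tv α δ hαδ (X δ * monomial s' a) - X δ * monomial s' a = monomial s a := by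
        have hfix : tv α δ hαδ (monomial s' a) = monomial s' a := by
          apply tv_fix
          intro hmem
          have h7 : δ ∈ s'.support := by
            by_cases ha : a = 0
            · rw [ha, map_zero, vars_0] at hmem; simp at hmem
            · rwa [vars_monomial ha] at hmem
          rw [Finsupp.mem_support_iff, hs', Finsupp.tsub_apply, hδ'] at h7
          simp at h7
        rw [map_mul, tv_self, hfix, e1]; ring
      rw [← e2]
      exact h4 ⟨tv α δ hαδ, tv_mem hαδ⟩ _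
  have h6 : ∀ f : R, inl f ∈ C := by
    intro f
    induction f using MvPolynomial.induction_on' with
    | monomial s a => exact h5 s a
    | add p q hp hq => rw [inl_add]; exact mul_mem hp hq
  rw [eq_top_iff]
  intro x _
  rw [eq_mul x]
  exact mul_mem (h6 _) (h3 _)

open Gp

lemma fix_supported (g : R →ₐ[ZMod 2] R) (s : Set ℚ) (h : ∀ i ∈ s, g (X i) = X i) {p : R}
    (hp : p ∈ supported (ZMod 2) s) : g p = p := by
  have h1 : supported (ZMod 2) s ≤ AlgHom.equalizer g (AlgHom.id (ZMod 2) R) := by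
    rw [supported]
    apply Algebra.adjoin_le
    rintro _ ⟨i, hi, rfl⟩
    exact h i hi
  exact h1 hp

lemma map_supported' (g : R →ₐ[ZMod 2] R) (s : Set ℚ) (h : ∀ i ∈ s, g (X i) ∈ supported (ZMod 2) s)
    {p : R} (hp : p ∈ supported (ZMod 2) s) : g p ∈ supported (ZMod 2) s := by
  have h1 : supported (ZMod 2) s ≤ (supported (ZMod 2) s).comap g := by
    conv_lhs => rw [supported]
    apply Algebra.adjoin_le
    rintro _ ⟨i, hi, rfl⟩
    exact h i hi
  exact h1 hp

lemma Lin_le_supported {s : Set ℚ} {p : R} (hp : p ∈ Lin s) : p ∈ supported (ZMod 2) s := by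
  have h1 : Lin s ≤ Subalgebra.toSubmodule (supported (ZMod 2) s) := by
    apply Submodule.span_le.2
    rintro _ ⟨i, hi, rfl⟩
    exact X_mem_supported.2 hi
  exact h1 hp

/-- The recursively defined coefficients. -/
noncomputable def Ak (m : A) (y : R) (δ : ℕ → ℚ) : ℕ → R
  | 0 => 1
  | k + 1 => m (Ak m y δ k) * (X (δ k) + y) - Ak m y δ k * X (δ k)

theorem nilpotent_normal_le (K : Subgroup Gp) (hK : K.Normal) (hnil : Group.IsNilpotent K) :
    K ≤ π.ker := by
  classical
  intro κ hκ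
  rw [MonoidHom.mem_ker]
  by_contra hne
  set m : A := (κ.m : A) with hm
  have hm1 : m ≠ 1 := fun h => hne (Subtype.ext h)
  obtain ⟨δ₀, hδ₀⟩ : ∃ δ₀ : ℚ, m (X δ₀) ≠ X δ₀ := by
    by_contra hcon
    push Not at hcon
    exact hm1 (A_ext hcon)
  obtain ⟨F, hF, -⟩ := exists_tri κ.m.2
  set y : R := m (X δ₀) - X δ₀ with hy
  have hy0 : y ≠ 0 := sub_ne_zero.2 hδ₀
  have hyF : y ∈ supported (ZMod 2) (F : Set ℚ) := by
    apply Lin_le_supported
    exact Lin_mono (S := {ν | ν ∈ F ∧ ν < δ₀}) (T := (F : Set ℚ)) (fun ν hν => hν.1) (hF.1 δ₀)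
  obtain ⟨n, hn⟩ := (Subgroup.isNilpotent_iff_lowerCentralSeries K).1 hnil
  -- large indices
  obtain ⟨b, hb⟩ := (insert δ₀ F).exists_le
  let δ : ℕ → ℚ := fun k => b + 1 + k
  have hδinj : ∀ j k, j ≠ k → δ j ≠ δ k := by
    intro j k hjk h
    apply hjk
    have : (j : ℚ) = k := add_left_cancel h
    exact_mod_cast this
  have hδF : ∀ k, δ k ∉ F := by
    intro k hk
    have h1 := hb _ (Finset.mem_insert_of_mem hk)
    have h2 : (0 : ℚ) ≤ k := by positivity
    have h3 : b + 1 + (k : ℚ) ≤ b := h1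
    linarith
  have hδ₀k : ∀ k, δ₀ < δ k := by
    intro k
    have h1 := hb _ (Finset.mem_insert_self δ₀ F)
    have h2 : (0 : ℚ) ≤ k := by positivity
    show δ₀ < b + 1 + (k : ℚ)
    linarith
  let S : ℕ → Set ℚ := fun k => {γ | γ ∈ F ∨ ∃ j < k, γ = δ j}
  have hFS : ∀ k, (F : Set ℚ) ⊆ S k := fun k γ hγ => Or.inl hγ
  have hSS : ∀ k, S k ⊆ S (k + 1) := by
    rintro k γ (h | ⟨j, hj, rfl⟩)
    · exact Or.inl h
    · exact Or.inr ⟨j, hj.trans (Nat.lt_succ_self k), rfl⟩
  have hδS : ∀ k, δ k ∉ S k := by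
    rintro k (h | ⟨j, hj, h⟩)
    · exact hδF k h
    · exact hδinj k j (Nat.ne_of_gt hj) h
  have hmS : ∀ k, ∀ p ∈ supported (ZMod 2) (S k), m p ∈ supported (ZMod 2) (S k) := by
    intro k p hp
    refine map_supported' (m : R →ₐ[ZMod 2] R) (S k) ?_ hp
    intro i hi
    show m (X i) ∈ _
    have h1 : m (X i) - X i ∈ supported (ZMod 2) (S k) := by
      apply Lin_le_supported
      exact Lin_mono (S := {ν | ν ∈ F ∧ ν < i}) (T := S k) (fun ν hν => Or.inl hν.1) (hF.1 i)
    have h2 := add_mem h1 (X_mem_supported.2 hi : (X i : R) ∈ supported (ZMod 2) (S k))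
    rwa [sub_add_cancel] at h2
  -- the coefficients
  have hAS : ∀ k, Ak m y δ k ∈ supported (ZMod 2) (S k) := by
    intro k
    induction k with
    | zero => exact one_mem _
    | succ k ih =>
      have hX : (X (δ k) : R) ∈ supported (ZMod 2) (S (k + 1)) :=
        X_mem_supported.2 (Or.inr ⟨k, Nat.lt_succ_self k, rfl⟩)
      have h1 := supported_mono (hSS k) (hmS k _ ih)
      have h2 := supported_mono (hSS k) ih
      have h3 := supported_mono (hFS (k + 1)) hyF
      exact sub_mem (mul_mem h1 (add_mem hX h3)) (mul_mem h2 hX)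
  have hA0 : ∀ k, Ak m y δ k ≠ 0 := by
    intro k
    induction k with
    | zero => exact one_ne_zero
    | succ k ih =>
      intro h0
      let ε : R →ₐ[ZMod 2] R := aeval (fun γ => if γ = δ k then 0 else X γ)
      have hε : ∀ p ∈ supported (ZMod 2) (S k), ε p = p := by
        intro p hp
        refine fix_supported ε (S k) ?_ hp
        intro i hi
        have : i ≠ δ k := fun h => hδS k (h ▸ hi)
        simp [ε, this]
      have hεX : ε (X (δ k)) = 0 := by simp [ε]
      have h1 : ε (Ak m y δ (k + 1)) = m (Ak m y δ k) * y := by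
        show ε (m (Ak m y δ k) * (X (δ k) + y) - Ak m y δ k * X (δ k)) = _
        rw [map_sub, map_mul, map_mul, map_add, hεX, hε _ (hmS k _ (hAS k)),
          hε _ (supported_mono (hFS k) hyF)]
        ring
      rw [h0, map_zero] at h1
      have h2 : m (Ak m y δ k) ≠ 0 := by
        intro h
        apply ih
        have := congrArg m.symm h
        rwa [AlgEquiv.symm_apply_apply, map_zero] at this
      exact mul_ne_zero h2 hy0 h1.symm
  -- the conjugates
  let t : ℕ → M := fun k => ⟨tv δ₀ (δ k) (hδ₀k k), tv_mem _⟩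
  let κk : ℕ → Gp := fun k => inr (t k) * κ * (inr (t k))⁻¹
  have hκk : ∀ k, κk k ∈ K := fun k => hK.conj_mem κ hκ _
  have hκm : ∀ k f, ((κk k).m : A) f =
      tv δ₀ (δ k) (hδ₀k k) (m (tv δ₀ (δ k) (hδ₀k k) f)) := fun k f => rfl
  have hact1 : ∀ k, ∀ p ∈ supported (ZMod 2) (S k), ((κk k).m : A) p = m p := by
    intro k p hp
    have htfix : ∀ q ∈ supported (ZMod 2) (S k), tv δ₀ (δ k) (hδ₀k k) q = q := by
      intro q hq
      refine fix_supported (tv δ₀ (δ k) (hδ₀k k) : R →ₐ[ZMod 2] R) (S k) ?_ hq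
      intro i hi
      have : i ≠ δ k := fun h => hδS k (h ▸ hi)
      exact tv_ne _ this
    rw [hκm, htfix p hp, htfix _ (hmS k p hp)]
  have hact2 : ∀ k, ((κk k).m : A) (X (δ k)) = X (δ k) + y := by
    intro k
    have h1 : tv δ₀ (δ k) (hδ₀k k) y = y := by
      refine fix_supported (tv δ₀ (δ k) (hδ₀k k) : R →ₐ[ZMod 2] R) (F : Set ℚ) ?_ hyF
      intro i hi
      have : i ≠ δ k := fun h => hδF k (h ▸ hi)
      exact tv_ne _ this
    have h2 : m (X δ₀) = X δ₀ + y := by rw [hy]; ring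
    have h3 : δ₀ ≠ δ k := (hδ₀k k).ne
    rw [hκm, tv_self, map_add, hF.2 _ (hδF k), h2, map_add, map_add, tv_self, tv_ne _ h3, h1]
    linear_combination add_self (X δ₀ : R)
  have hact3 : ∀ j k, j ≠ k → ((κk k).m : A) (X (δ j)) = X (δ j) := by
    intro j k hjk
    rw [hκm, tv_ne _ (hδinj j k hjk), hF.2 _ (hδF j), tv_ne _ (hδinj j k hjk)]
  -- the vectors
  let f : ℕ → R := fun k => Ak m y δ k * ∏ j ∈ Finset.Ico k (n + 1), X (δ j)
  have hf : ∀ k, k < n + 1 → f (k + 1) = ((κk k).m : A) (f k) - f k := by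
    intro k hk
    show Ak m y δ (k + 1) * ∏ j ∈ Finset.Ico (k + 1) (n + 1), X (δ j) =
      ((κk k).m : A) (Ak m y δ k * ∏ j ∈ Finset.Ico k (n + 1), X (δ j)) -
        Ak m y δ k * ∏ j ∈ Finset.Ico k (n + 1), X (δ j)
    rw [Finset.prod_eq_prod_Ico_succ_bot hk, map_mul, map_mul, hact1 k _ (hAS k), hact2 k, map_prod]
    have h1 : ∏ j ∈ Finset.Ico (k + 1) (n + 1), ((κk k).m : A) (X (δ j)) =
        ∏ j ∈ Finset.Ico (k + 1) (n + 1), X (δ j) := by
      apply Finset.prod_congr rfl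
      intro j hj
      rw [Finset.mem_Ico] at hj
      exact hact3 j k (by omega)
    rw [h1]
    show (m (Ak m y δ k) * (X (δ k) + y) - Ak m y δ k * X (δ k)) * _ = _
    ring
  have hcomm : ∀ (x : Gp) (p : R), x * inl p * x⁻¹ * (inl p)⁻¹ = inl ((x.m : A) p - p) := by
    intro x p
    rw [conj_inl, sub_eq_add_neg, inl_add, inl_neg]
  have hmem : ∀ k, k < n + 1 → inl (f (k + 1)) ∈ K.lowerCentralSeries k := by
    intro k
    induction k with
    | zero =>
      intro hk
      rw [hf 0 hk, ← hcomm, Subgroup.lowerCentralSeries_zero]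
      have : κk 0 * inl (f 0) * (κk 0)⁻¹ * (inl (f 0))⁻¹ =
          κk 0 * (inl (f 0) * (κk 0)⁻¹ * (inl (f 0))⁻¹) := by group
      rw [this]
      exact mul_mem (hκk 0) (hK.conj_mem _ (inv_mem (hκk 0)) _)
    | succ k ih =>
      intro hk
      have h1 := ih (by omega)
      rw [hf (k + 1) hk, ← hcomm, Subgroup.lowerCentralSeries_succ, Subgroup.commutator_comm]
      exact Subgroup.commutator_mem_commutator (hκk (k + 1)) h1
  have h1 := hmem n (Nat.lt_succ_self n)
  rw [hn, Subgroup.mem_bot] at h1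
  have h2 : f (n + 1) = 0 := congrArg Gp.v h1
  have h3 : f (n + 1) = Ak m y δ (n + 1) := by
    show Ak m y δ (n + 1) * ∏ j ∈ Finset.Ico (n + 1) (n + 1), X (δ j) = _
    rw [Finset.Ico_self, Finset.prod_empty, mul_one]
  exact hA0 (n + 1) (h3 ▸ h2)

theorem not_fitting : ¬ IsFittingGroup Gp := by
  intro h
  have h1 : (⊤ : Subgroup Gp) ≤ π.ker := by
    rw [← h]
    apply sSup_le
    rintro K ⟨hK, hnil⟩
    exact nilpotent_normal_le K hK hnil
  have h2 : inr ⟨tv 0 1 zero_lt_one, tv_mem _⟩ ∈ π.ker := h1 trivial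
  have h3 : (⟨tv 0 1 zero_lt_one, tv_mem _⟩ : M) = 1 := h2
  have h4 : tv 0 1 zero_lt_one (X 1) = X 1 :=
    congrArg (fun g : M => (g : A) (X 1)) h3
  rw [tv_self] at h4
  have h5 : (X 0 : R) = 0 := by
    have : (X 1 : R) + X 0 = X 1 + 0 := by rw [add_zero]; exact h4
    exact add_left_cancel this
  exact X_ne_zero (0 : ℚ) h5

/-- There is a pseudocentral Baer group that is not a Fitting group. -/
theorem result : ∃ (G : Type) (_ : Group G), pseudocentre G = ⊤ ∧ IsBaer G ∧ ¬ IsFittingGroup G :=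
  ⟨Gp, inferInstance, pseudocentral, baer, not_fitting⟩

end Pool.Agent.Results.MP_a7b7fa_al.PseudocentralBaer
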